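import Pool.Agent.Helper879.ECD.Packing

set_option autoImplicit false
set_option linter.unusedSectionVars false

/-!
Matroid union for finitely many vector configurations on the same ground set: pairwise disjoint
spanning sets, one for each configuration.  The proof follows `packK` of the starting library.
-/

namespace Run7.h315.QL

open Finset
open Pool.Agent.Helper879.ECD (sp Ind sp_mono mem_sp mem_sp_exch sp_exch)

variable {F U E K : Type} [Field F] [AddCommGroup U] [Module F U] [DecidableEq E]
  [Fintype K] [DecidableEq K]

variable {x : K → E → U}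

open Classical in
/-- Matroid union: pairwise disjoint sets indexed by `K`, the set with index `i` spanning for the
configuration `x i`. -/
theorem packFam [FiniteDimensional F U] [Fintype E]
    (hH : ∀ R : Finset E, ∑ i, Module.finrank F (sp F (x i) univ) ≤
      ∑ i, Module.finrank F (sp F (x i) R) + (univ \ R).card) :
    ∃ I : K → Finset E, (∀ i j, i ≠ j → Disjoint (I i) (I j)) ∧
      ∀ i, sp F (x i) (I i) = sp F (x i) univ := by
  classical
  let good : (K → Finset E) → Prop := fun p =>
    (∀ i j, i ≠ j → Disjoint (p i) (p j)) ∧ ∀ i, Ind F (x i) (p i)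
  have hex : (univ.filter good).Nonempty := by
    refine ⟨fun _ => ∅, ?_⟩
    rw [Finset.mem_filter]
    refine ⟨Finset.mem_univ _, ?_, ?_⟩
    · intro i j _; simp
    · intro i; unfold Ind; simp
  obtain ⟨p0, hp0, hmax⟩ := Finset.exists_max_image (univ.filter good)
    (fun p => ∑ i, (p i).card) hex
  rw [Finset.mem_filter] at hp0
  have hg0 : good p0 := hp0.2
  set m := ∑ i, (p0 i).card with hm
  have hmax' : ∀ p, good p → ∑ i, (p i).card ≤ m := by
    intro p hp
    exact hmax p (by rw [Finset.mem_filter]; exact ⟨Finset.mem_univ _, hp⟩)
  have hsum_upd : ∀ (p : K → Finset E) (i : K) (s : Finset E),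
      ∑ j, (Function.update p i s j).card + (p i).card = ∑ j, (p j).card + s.card := by
    intro p i s
    rw [← Finset.add_sum_erase univ _ (Finset.mem_univ i),
      ← Finset.add_sum_erase univ (fun j => (p j).card) (Finset.mem_univ i)]
    have h1 : ∑ j ∈ univ.erase i, (Function.update p i s j).card =
        ∑ j ∈ univ.erase i, (p j).card := by
      apply Finset.sum_congr rfl
      intro j hj
      rw [Function.update_of_ne (Finset.ne_of_mem_erase hj)]
    rw [h1, Function.update_self]
    omega
  -- good families of maximum size span every uncovered element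
  have hspan : ∀ p, good p → ∑ i, (p i).card = m → ∀ e, (∀ i, e ∉ p i) →
      ∀ i, x i e ∈ sp F (x i) (p i) := by
    intro p hg hc e he i
    by_contra hcon
    have h1 := hmax' (Function.update p i (insert e (p i))) (by
      refine ⟨?_, ?_⟩
      · intro j k hjk
        by_cases hj : j = i
        · subst hj
          rw [Function.update_self, Function.update_of_ne (Ne.symm hjk),
            Finset.disjoint_insert_left]
          exact ⟨he k, hg.1 j k hjk⟩
        · by_cases hk : k = i
          · subst hk
            rw [Function.update_self, Function.update_of_ne hj,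
              Finset.disjoint_insert_right]
            exact ⟨he j, hg.1 j k hjk⟩
          · rw [Function.update_of_ne hj, Function.update_of_ne hk]
            exact hg.1 j k hjk
      · intro j
        by_cases hj : j = i
        · subst hj
          rw [Function.update_self]
          exact (hg.2 j).insert hcon
        · rw [Function.update_of_ne hj]; exact hg.2 j)
    have h2 := hsum_upd p i (insert e (p i))
    rw [Finset.card_insert_of_notMem (he i)] at h2
    omega
  let step : (K → Finset E) → (K → Finset E) → Prop := fun p q =>
    ∃ e f i, (∀ j, e ∉ p j) ∧ f ∈ p i ∧ x i e ∉ sp F (x i) ((p i).erase f) ∧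
      q = Function.update p i (insert e ((p i).erase f))
  have hstep_good : ∀ p q, good p → ∑ i, (p i).card = m → step p q →
      good q ∧ ∑ i, (q i).card = m := by
    rintro p q hg hc ⟨e, f, i, he, hf, hne, rfl⟩
    refine ⟨⟨?_, ?_⟩, ?_⟩
    · intro j k hjk
      by_cases hj : j = i
      · subst hj
        rw [Function.update_self, Function.update_of_ne (Ne.symm hjk),
          Finset.disjoint_insert_left]
        exact ⟨he k, Finset.disjoint_of_subset_left (Finset.erase_subset _ _) (hg.1 j k hjk)⟩
      · by_cases hk : k = i
        · subst hk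
          rw [Function.update_self, Function.update_of_ne hj,
            Finset.disjoint_insert_right]
          exact ⟨he j, Finset.disjoint_of_subset_right (Finset.erase_subset _ _) (hg.1 j k hjk)⟩
        · rw [Function.update_of_ne hj, Function.update_of_ne hk]
          exact hg.1 j k hjk
    · intro j
      by_cases hj : j = i
      · subst hj
        rw [Function.update_self]
        exact ((hg.2 j).subset (Finset.erase_subset _ _)).insert hne
      · rw [Function.update_of_ne hj]; exact hg.2 j
    · have h2 := hsum_upd p i (insert e ((p i).erase f))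
      rw [Finset.card_insert_of_notMem (fun h => he i (Finset.mem_of_mem_erase h)),
        Finset.card_erase_of_mem hf] at h2
      have := Finset.card_pos.2 ⟨f, hf⟩
      omega
  let Reach : (K → Finset E) → Prop := fun p => Relation.ReflTransGen step p0 p
  have hreach_good : ∀ p, Reach p → good p ∧ ∑ i, (p i).card = m := by
    intro p hp
    induction hp with
    | refl => exact ⟨hg0, rfl⟩
    | tail _ h ih => exact hstep_good _ _ ih.1 ih.2 h
  obtain ⟨R, hR⟩ : ∃ R : Finset E, ∀ e, e ∈ R ↔ ∃ p, Reach p ∧ ∀ i, e ∉ p i :=
    ⟨univ.filter (fun e => ∃ p, Reach p ∧ ∀ i, e ∉ p i), by intro e; simp⟩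
  -- an uncovered element is spanned by the part inside `R`
  have hfR' : ∀ p, Reach p → ∀ e f i, (∀ j, e ∉ p j) → f ∈ p i →
      x i e ∉ sp F (x i) ((p i).erase f) → f ∈ R := by
    intro p hp e f i he hf hne
    obtain ⟨hg, hc⟩ := hreach_good p hp
    rw [hR]
    refine ⟨_, hp.tail ⟨e, f, i, he, hf, hne, rfl⟩, ?_⟩
    intro j
    by_cases hj : j = i
    · subst hj
      rw [Function.update_self, Finset.mem_insert]
      push Not
      exact ⟨fun h => he j (h ▸ hf), fun h => absurd rfl (Finset.ne_of_mem_erase h)⟩
    · rw [Function.update_of_ne hj]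
      exact fun h => Finset.disjoint_left.1 (hg.1 j i hj) h hf
  have hinR : ∀ p, Reach p → ∀ e, (∀ j, e ∉ p j) → ∀ i, x i e ∈ sp F (x i) (p i ∩ R) := by
    intro p hp e he i
    obtain ⟨hg, hc⟩ := hreach_good p hp
    apply mem_sp_exch (hg.2 i) (hspan p hg hc e he i)
    intro g hgI hne
    exact hfR' p hp e g i he hgI hne
  have hinv : ∀ p, Reach p → ∀ i, sp F (x i) (p i ∩ R) = sp F (x i) (p0 i ∩ R) := by
    intro p hp
    induction hp with
    | refl => intro i; rfl
    | @tail p q hpp hpq ih =>
      obtain ⟨e, f, k, he, hf, hne, rfl⟩ := hpq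
      have heR : e ∈ R := (hR e).2 ⟨p, hpp, he⟩
      have t1 := hinR p hpp e he k
      have hfR : f ∈ R := hfR' p hpp e f k he hf hne
      intro i
      by_cases hi : i = k
      · subst hi
        rw [← ih i, Function.update_self]
        have heq : insert e ((p i).erase f) ∩ R = insert e ((p i ∩ R).erase f) := by
          ext g
          simp only [Finset.mem_inter, Finset.mem_insert, Finset.mem_erase]
          constructor
          · rintro ⟨h | h, h'⟩
            · exact Or.inl h
            · exact Or.inr ⟨h.1, h.2, h'⟩
          · rintro (h | h)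
            · exact ⟨Or.inl h, h ▸ heR⟩
            · exact ⟨Or.inr ⟨h.1, h.2.1⟩, h.2.2⟩
        rw [heq]
        apply sp_exch (Finset.mem_inter.2 ⟨hf, hfR⟩) t1
        intro hcon
        apply hne
        exact sp_mono (Finset.erase_subset_erase _ Finset.inter_subset_left) hcon
      · rw [Function.update_of_ne hi]
        exact ih i
  -- all parts span `R`
  have hspR : ∀ i, sp F (x i) (p0 i ∩ R) = sp F (x i) R := by
    intro i
    apply le_antisymm (sp_mono Finset.inter_subset_right)
    unfold sp
    rw [Submodule.span_le]
    rintro _ ⟨e, he, rfl⟩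
    obtain ⟨p, hp, h1⟩ := (hR e).1 (Finset.mem_coe.1 he)
    have := hinR p hp e h1 i
    rw [hinv p hp i] at this
    exact this
  obtain ⟨hd, hI⟩ := hg0
  have c1 : ∀ i, Module.finrank F (sp F (x i) R) = (p0 i ∩ R).card := by
    intro i
    have := ((hI i).subset (Finset.inter_subset_left (s₂ := R))).card
    rw [hspR i] at this
    exact this
  have c3 : ∀ i, Module.finrank F (sp F (x i) (p0 i)) = (p0 i).card := fun i => (hI i).card
  have c5 : ∀ i, (p0 i \ R).card + (p0 i ∩ R).card = (p0 i).card := fun i =>
    Finset.card_sdiff_add_card_inter (p0 i) R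
  have c7 : (univ \ R).card ≤ ∑ i, (p0 i \ R).card := by
    rw [← Finset.card_biUnion (by
      intro i _ j _ hij
      exact Finset.disjoint_of_subset_left Finset.sdiff_subset
        (Finset.disjoint_of_subset_right Finset.sdiff_subset (hd i j hij)))]
    apply Finset.card_le_card
    intro e he
    have heR : e ∉ R := (Finset.mem_sdiff.1 he).2
    rw [Finset.mem_biUnion]
    by_contra hcon
    apply heR
    rw [hR]
    refine ⟨p0, Relation.ReflTransGen.refl, ?_⟩
    intro i hi
    exact hcon ⟨i, Finset.mem_univ _, Finset.mem_sdiff.2 ⟨hi, heR⟩⟩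
  have c8 := hH R
  have c9 : ∀ i, Module.finrank F (sp F (x i) (p0 i)) ≤ Module.finrank F (sp F (x i) univ) :=
    fun i => Submodule.finrank_mono (sp_mono (Finset.subset_univ _))
  have c10 : ∑ i : K, (p0 i).card =
      ∑ i, Module.finrank F (sp F (x i) R) + ∑ i, (p0 i \ R).card := by
    rw [← Finset.sum_add_distrib]
    apply Finset.sum_congr rfl
    intro i _
    rw [c1 i, ← c5 i]; omega
  have c11 : ∑ i, Module.finrank F (sp F (x i) univ) ≤ ∑ i : K, (p0 i).card := by
    omega
  refine ⟨p0, hd, ?_⟩
  intro i
  apply Submodule.eq_of_le_of_finrank_eq (sp_mono (Finset.subset_univ _))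
  apply le_antisymm (c9 i)
  by_contra hcon
  push Not at hcon
  have c12 : ∑ i : K, (p0 i).card < ∑ i : K, Module.finrank F (sp F (x i) univ) := by
    apply Finset.sum_lt_sum
    · intro j _
      rw [← c3 j]; exact c9 j
    · exact ⟨i, Finset.mem_univ _, by rw [← c3 i]; exact hcon⟩
  omega

end Run7.h315.QL
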