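import Pool.Agent.Run7.h315.QL.Pack
import Pool.Agent.Run7.h315.QL.Union

set_option autoImplicit false
set_option linter.unusedSectionVars false

/-!
Circuit covers with the values two and four from two even sets `D`, `D'` which both meet every
nonempty cut, while no nonempty cut lies in both.
-/

namespace Run7.h315.QL

open Finset
open Pool.Agent.Helper879.ECD (F2 IsFlow f2_add_self f2_cases cn sp inc fnl fnl_inc sp_mono mem_sp)
open Pool.Agent.H126R2.CDC
open Pool.Agent.TH300.FC (sub deg_map up)

variable {V E : Type} [Fintype V] [DecidableEq V] [Fintype E] [DecidableEq E]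

lemma flow_of_ind {ψ : E → F2} : ind (univ.filter fun e => ψ e = 1) = ψ := by
  ext f
  unfold ind
  rcases f2_cases (ψ f) with h5 | h5 <;> simp [h5]

/-- the even set of a flow -/
lemma even_of_flow (G : MGraph V E) (v : E × Bool → V)
    (hv : ∀ e, G.ends e = s(v (e, false), v (e, true))) (ψ : E → F2)
    (h : IsFlow (fun e => v (e, false)) (fun e => v (e, true)) ψ) :
    G.IsEven (univ.filter fun e => ψ e = 1) := by
  rw [flow_ind G v hv, flow_of_ind]
  exact h

/-- extension of a function off a set which meets every nonempty cut -/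
lemma extend_cut (G : MGraph V E) (v : E × Bool → V)
    (hv : ∀ e, G.ends e = s(v (e, false), v (e, true))) (J : E → Prop)
    (hJ : ∀ X : Finset V, (∀ e ∈ cut G X, ¬ J e) → cut G X = ∅) (f : E → F2) :
    ∃ ψ : E → F2, IsFlow (fun e => v (e, false)) (fun e => v (e, true)) ψ ∧
      ∀ e, ¬ J e → ψ e = f e := by
  apply extend
  intro c hc
  have h3 := hJ (univ.filter fun x => c x = 1) (by
    intro e he heJ
    have h4 := hc e heJ
    rw [cob_eq G v hv c e, if_pos he] at h4
    exact absurd h4 (by decide))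
  intro e
  rw [cob_eq G v hv c e, h3]
  simp

/-- the six values at an edge -/
def six (i : Fin 6) (d b d' b' p : F2) : F2 :=
  match i with
  | 0 => d + p
  | 1 => b + p
  | 2 => d + b + p
  | 3 => d' + p
  | 4 => b' + p
  | 5 => d' + b' + p

lemma six_card_both : ∀ d b d' b' p : F2, (d = 1 ∨ b = 1) → (d' = 1 ∨ b' = 1) →
    (univ.filter fun i => six i d b d' b' p = 1).card = if p = 1 then 2 else 4 := by
  decide

lemma six_card_left : ∀ d b d' b' p : F2, (d = 0 ∧ b = 0) → (d' = 1 ∨ b' = 1) →
    (univ.filter fun i => six i d b d' b' p = 1).card = if p = 1 then 4 else 2 := by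
  decide

lemma six_card_right : ∀ d b d' b' p : F2, (d = 1 ∨ b = 1) → (d' = 0 ∧ b' = 0) →
    (univ.filter fun i => six i d b d' b' p = 1).card = if p = 1 then 4 else 2 := by
  decide

lemma six_flow {W : Type} [Fintype W] [DecidableEq W]
    {a b : E → W} {x1 x2 x3 x4 x5 : E → F2} (h1 : IsFlow a b x1) (h2 : IsFlow a b x2)
    (h3 : IsFlow a b x3) (h4 : IsFlow a b x4) (h5 : IsFlow a b x5) (i : Fin 6) :
    IsFlow a b (fun e => six i (x1 e) (x2 e) (x3 e) (x4 e) (x5 e)) := by
  fin_cases i
  · exact IsFlow.add' h1 h5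
  · exact IsFlow.add' h2 h5
  · exact IsFlow.add' (IsFlow.add' h1 h2) h5
  · exact IsFlow.add' h3 h5
  · exact IsFlow.add' h4 h5
  · exact IsFlow.add' (IsFlow.add' h3 h4) h5

/-- six even sets with values two and four -/
theorem core_two_four (G : MGraph V E) (D D' : Finset E) (hD : G.IsEven D) (hD' : G.IsEven D')
    (h1 : ∀ X : Finset V, Disjoint (cut G X) D → cut G X = ∅)
    (h2 : ∀ X : Finset V, Disjoint (cut G X) D' → cut G X = ∅)
    (h3 : ∀ X : Finset V, cut G X ⊆ D ∩ D' → cut G X = ∅) (L : Finset E) :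
    ∃ F : Multiset (Finset E), (∀ C ∈ F, G.IsCircuit C) ∧
      ∀ e, F.countP (fun C => e ∈ C) = if e ∈ L then 2 else 4 := by
  classical
  obtain ⟨v, hv⟩ := G.exists_halves
  -- the flow `ψ`, equal to the indicator function of `L` on the common part
  obtain ⟨ψ, hψ1, hψ2⟩ := extend_cut G v hv (fun e => e ∉ D ∩ D') (by
    intro X hX
    apply h3 X
    intro e he
    exact not_not.1 (hX e he)) (ind L)
  have hψ3 : ∀ e, e ∈ D → e ∈ D' → ψ e = ind L e := fun e h h' =>
    hψ2 e (not_not.2 (Finset.mem_inter.2 ⟨h, h'⟩))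
  -- the two supports
  obtain ⟨β, hβ1, hβ2⟩ := extend_cut G v hv (fun e => e ∈ D) (by
    intro X hX
    apply h1 X
    rw [Finset.disjoint_left]
    exact hX) (fun e => 1 + ψ e + ind L e)
  obtain ⟨β', hβ1', hβ2'⟩ := extend_cut G v hv (fun e => e ∈ D') (by
    intro X hX
    apply h2 X
    rw [Finset.disjoint_left]
    exact hX) (fun e => if e ∈ D then 1 + ψ e + ind L e else 1)
  have fD := (flow_ind G v hv D).1 hD
  have fD' := (flow_ind G v hv D').1 hD'
  let Z : Fin 6 → Finset E := fun i =>
    univ.filter fun e => six i (ind D e) (β e) (ind D' e) (β' e) (ψ e) = 1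
  have hZ : ∀ i, G.IsEven (Z i) := fun i =>
    even_of_flow G v hv _ (six_flow fD hβ1 fD' hβ1' hψ1 i)
  choose F hF1 hF2 using fun i => G.decompose _ (Z i) rfl (hZ i)
  refine ⟨∑ i, F i, ?_, ?_⟩
  · intro C hC
    rw [Multiset.mem_sum] at hC
    obtain ⟨c, _, hc⟩ := hC
    exact hF1 c C hc
  · intro e
    have h4 : ∀ s : Finset (Fin 6), (∑ c ∈ s, F c).countP (fun C => e ∈ C) =
        ∑ c ∈ s, (F c).countP (fun C => e ∈ C) := by
      intro s
      induction s using Finset.induction_on with
      | empty => simp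
      | insert c s hc ih => rw [Finset.sum_insert hc, Finset.sum_insert hc, Multiset.countP_add, ih]
    rw [h4]
    have h5 : ∀ c ∈ (univ : Finset (Fin 6)), (F c).countP (fun C => e ∈ C) =
        if six c (ind D e) (β e) (ind D' e) (β' e) (ψ e) = 1 then 1 else 0 := by
      intro c _
      rw [hF2 c e]
      simp [Z]
    rw [Finset.sum_congr rfl h5, ← Finset.card_filter]
    have hdec : ∀ x y : F2, x = y ∨ x = 1 + y := by decide
    have hLone : ind L e = 1 ↔ e ∈ L := by
      unfold ind
      by_cases h : e ∈ L <;> simp [h]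
    have hrew : (if e ∈ L then 2 else 4) = (if ind L e = 1 then 2 else 4 : ℕ) := by
      by_cases h : e ∈ L
      · rw [if_pos h, if_pos (hLone.2 h)]
      · rw [if_neg h, if_neg (fun h' => h (hLone.1 h'))]
    rw [hrew]
    by_cases hd : e ∈ D
    · have k1 : ind D e = 1 := by simp [ind, hd]
      by_cases hd' : e ∈ D'
      · have k2 : ind D' e = 1 := by simp [ind, hd']
        rw [six_card_both _ _ _ _ _ (Or.inl k1) (Or.inl k2), hψ3 e hd hd']
      · have k2 : ind D' e = 0 := by simp [ind, hd']
        have k3 := hβ2' e hd'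
        rw [if_pos hd] at k3
        rcases hdec (ψ e) (ind L e) with h | h
        · rw [six_card_both _ _ _ _ _ (Or.inl k1) (Or.inr (by
            rw [k3, h, add_assoc, f2_add_self, add_zero])), h]
        · rw [six_card_right _ _ _ _ _ (Or.inl k1) ⟨k2, by
            rw [k3, h]
            generalize ind L e = y
            revert y
            decide⟩, h]
          generalize ind L e = y
          revert y
          decide
    · have k1 : ind D e = 0 := by simp [ind, hd]
      have k4 := hβ2 e hd
      have k5 : ind D' e = 1 ∨ β' e = 1 := by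
        by_cases hd' : e ∈ D'
        · left; simp [ind, hd']
        · right
          have k3 := hβ2' e hd'
          rw [if_neg hd] at k3
          exact k3
      rcases hdec (ψ e) (ind L e) with h | h
      · rw [six_card_both _ _ _ _ _ (Or.inr (by
          rw [k4, h, add_assoc, f2_add_self, add_zero])) k5, h]
      · rw [six_card_left _ _ _ _ _ ⟨k1, by
          rw [k4, h]
          generalize ind L e = y
          revert y
          decide⟩ k5, h]
        generalize ind L e = y
        revert y
        decide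

/-- `S` is rich: there are even sets `D`, `D'` in `S` such that every nonempty cut of the subgraph
with edge set `S` meets `D`, meets `D'` and is not contained in `D ∩ D'`. -/
def Rich (G : MGraph V E) (S : Finset E) : Prop :=
  ∃ D D' : Finset E, D ⊆ S ∧ D' ⊆ S ∧ (∀ v, Even (G.deg D v)) ∧ (∀ v, Even (G.deg D' v)) ∧
    ∀ X : Finset V, (cut G X ∩ S).Nonempty →
      (cut G X ∩ D).Nonempty ∧ (cut G X ∩ D').Nonempty ∧ ¬ cut G X ∩ S ⊆ D ∩ D'

/-- the values two and four on a rich subgraph -/
theorem rich_two_four (G : MGraph V E) (S : Finset E) (hS : Rich G S) (L : Finset E) :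
    HasCover G (fun e => if e ∈ S then (if e ∈ L then 2 else 4) else 0) := by
  classical
  obtain ⟨D, D', hDS, hDS', hD, hD', hcut⟩ := hS
  have hne : ∀ X : Finset V, (cut (sub G (· ∈ S)) X) ≠ ∅ → (cut G X ∩ S).Nonempty := by
    intro X hX
    obtain ⟨e, he⟩ := Finset.nonempty_iff_ne_empty.2 hX
    exact ⟨e.1, Finset.mem_inter.2 ⟨(mem_cut_sub G S X e).1 he, e.2⟩⟩
  have h1 := core_two_four (sub G (· ∈ S)) (D.subtype (· ∈ S)) (D'.subtype (· ∈ S))
    (even_sub G S D hDS hD) (even_sub G S D' hDS' hD') (by
      intro X hX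
      by_contra h
      obtain ⟨⟨e, he⟩, _, _⟩ := hcut X (hne X h)
      rw [Finset.mem_inter] at he
      apply Finset.disjoint_left.1 hX ((mem_cut_sub G S X ⟨e, hDS he.2⟩).2 he.1)
      rw [Finset.mem_subtype]
      exact he.2) (by
      intro X hX
      by_contra h
      obtain ⟨_, ⟨e, he⟩, _⟩ := hcut X (hne X h)
      rw [Finset.mem_inter] at he
      apply Finset.disjoint_left.1 hX ((mem_cut_sub G S X ⟨e, hDS' he.2⟩).2 he.1)
      rw [Finset.mem_subtype]
      exact he.2) (by
      intro X hX
      by_contra h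
      obtain ⟨_, _, h2⟩ := hcut X (hne X h)
      apply h2
      intro e he
      rw [Finset.mem_inter] at he
      have h3 := hX ((mem_cut_sub G S X ⟨e, he.2⟩).2 he.1)
      rw [Finset.mem_inter, Finset.mem_subtype, Finset.mem_subtype] at h3
      exact Finset.mem_inter.2 h3) (L.subtype (· ∈ S))
  obtain ⟨F, hF1, hF2⟩ := cover_up G S _ h1
  refine ⟨F, hF1, fun e => ?_⟩
  rw [hF2 e]
  beta_reduce
  by_cases he : e ∈ S
  · rw [dif_pos he, if_pos he]
    simp
  · rw [dif_neg he, if_neg he]

/-- Assembling covers: rich subgraphs and bridgeless subgraphs. -/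
theorem assemble_rich (G : MGraph V E) {ι κ : Type} [Fintype ι] [DecidableEq ι] [Fintype κ]
    [DecidableEq κ] (S : ι → Finset E) (hS : ∀ i, Rich G (S i)) (R : κ → Finset E)
    (hR : ∀ j, ∀ e ∈ R j, ∃ C, G.IsCircuit C ∧ e ∈ C ∧ C ⊆ R j) (w : E → ℕ)
    (hodd : ∀ v, Even (G.deg (univ.filter fun e => Odd (w e)) v))
    (hw : ∀ e, 2 * (univ.filter fun j => e ∈ R j).card + 2 * (univ.filter fun i => e ∈ S i).card ≤
        w e ∧
      w e ≤ 2 * (univ.filter fun j => e ∈ R j).card + 4 * (univ.filter fun i => e ∈ S i).card + 1) :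
    HasCover G w := by
  classical
  apply Pool.Agent.TH300.FC.finish G w hodd
  have hH : ∀ e, ∃ H : Finset ι, H ⊆ univ.filter (fun i => e ∈ S i) ∧
      H.card = w e / 2 - (univ.filter fun j => e ∈ R j).card -
        (univ.filter fun i => e ∈ S i).card := by
    intro e
    obtain ⟨h1, h2⟩ := hw e
    obtain ⟨H, hH1, hH2⟩ := Finset.exists_subset_card_eq
      (s := univ.filter (fun i => e ∈ S i))
      (n := w e / 2 - (univ.filter fun j => e ∈ R j).card - (univ.filter fun i => e ∈ S i).card)
      (by omega)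
    exact ⟨H, hH1, hH2⟩
  choose H hH1 hH2 using hH
  have h1 := cover_sum G (univ : Finset ι)
    (fun i e => if e ∈ S i then (if e ∈ univ.filter (fun e => i ∉ H e) then 2 else 4) else 0) (by
    intro i _
    exact rich_two_four G (S i) (hS i) _)
  have h2 := cover_sum G (univ : Finset κ) (fun j e => if e ∈ R j then 2 else 0) (by
    intro j _
    exact Pool.Agent.TH300.FC.layer G (fun e => e ∈ R j) (fun e he => by
      obtain ⟨C, hC1, hC2, hC3⟩ := hR j e he
      exact ⟨C, hC1, hC2, fun f hf => hC3 hf⟩))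
  obtain ⟨F, hF1, hF2⟩ := h1
  obtain ⟨F', hF1', hF2'⟩ := h2
  refine ⟨F + F', ?_, ?_⟩
  · intro C hC
    rcases Multiset.mem_add.1 hC with h1 | h1
    · exact hF1 C h1
    · exact hF1' C h1
  · intro e
    rw [Multiset.countP_add, hF2, hF2']
    obtain ⟨h3, h4⟩ := hw e
    have h5 : ∑ j : κ, (if e ∈ R j then 2 else 0) = 2 * (univ.filter fun j => e ∈ R j).card := by
      rw [Finset.card_filter, Finset.mul_sum]
      apply Finset.sum_congr rfl
      intro j _
      split_ifs <;> rfl
    have h6 : ∑ i : ι, (if e ∈ S i then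
        (if e ∈ univ.filter (fun e => i ∉ H e) then 2 else 4) else 0) =
        2 * (univ.filter fun i => e ∈ S i).card + 2 * (H e).card := by
      have h7 : (H e).card = ∑ i : ι, if i ∈ H e then 1 else 0 := by
        rw [← Finset.card_filter]
        congr 1
        ext i
        simp
      rw [h7, Finset.card_filter, Finset.mul_sum, Finset.mul_sum, ← Finset.sum_add_distrib]
      apply Finset.sum_congr rfl
      intro i _
      by_cases hi : e ∈ S i
      · by_cases hi2 : i ∈ H e <;> simp [hi, hi2]
      · have hi2 : i ∉ H e := fun h => hi (Finset.mem_filter.1 (hH1 e h)).2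
        simp [hi, hi2]
    rw [h5, h6, hH2 e]
    omega

end Run7.h315.QL
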