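import Pool.Agent.Run7.h315.QL.Core

set_option autoImplicit false
set_option linter.unusedSectionVars false

/-!
Subgraphs all of whose nonempty cuts have at least five edges are rich.
-/

namespace Run7.h315.QL

open Finset
open Pool.Agent.Helper879.ECD (F2 IsFlow f2_add_self f2_cases cn sp inc fnl fnl_inc sp_mono mem_sp)
open Pool.Agent.H126R2.CDC
open Pool.Agent.TH300.FC (sub deg_map up)

section

variable {W E : Type} [Fintype W] [DecidableEq W] [Fintype E] [DecidableEq E]

/-- the five configurations on two copies of the edges: twice the first copy, twice the second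
copy, and both copies -/
def cfg (y : E → W → F2) (i : Fin 5) (p : E × Bool) : W → F2 :=
  match i with
  | 0 => if p.2 then 0 else y p.1
  | 1 => if p.2 then 0 else y p.1
  | 2 => if p.2 then y p.1 else 0
  | 3 => if p.2 then y p.1 else 0
  | 4 => y p.1

lemma cfg0 (y : E → W → F2) : cfg y 0 = fun p : E × Bool => if p.2 then 0 else y p.1 := rfl
lemma cfg1 (y : E → W → F2) : cfg y 1 = fun p : E × Bool => if p.2 then 0 else y p.1 := rfl
lemma cfg2 (y : E → W → F2) : cfg y 2 = fun p : E × Bool => if p.2 then y p.1 else 0 := rfl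
lemma cfg3 (y : E → W → F2) : cfg y 3 = fun p : E × Bool => if p.2 then y p.1 else 0 := rfl
lemma cfg4 (y : E → W → F2) : cfg y 4 = fun p : E × Bool => y p.1 := rfl

/-- the part of a set in one copy -/
def part (R : Finset (E × Bool)) (b : Bool) : Finset E := univ.filter fun e => (e, b) ∈ R

lemma sp_false (y : E → W → F2) (R : Finset (E × Bool)) :
    sp F2 (fun p : E × Bool => if p.2 then 0 else y p.1) R = sp F2 y (part R false) := by
  apply le_antisymm
  · unfold sp
    rw [Submodule.span_le]
    rintro _ ⟨⟨e, b⟩, he, rfl⟩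
    cases b
    · apply Submodule.subset_span
      exact ⟨e, by simpa [part] using he, by simp⟩
    · simp
  · unfold sp
    rw [Submodule.span_le]
    rintro _ ⟨e, he, rfl⟩
    apply Submodule.subset_span
    exact ⟨(e, false), by simpa [part] using he, by simp⟩

lemma sp_true (y : E → W → F2) (R : Finset (E × Bool)) :
    sp F2 (fun p : E × Bool => if p.2 then y p.1 else 0) R = sp F2 y (part R true) := by
  apply le_antisymm
  · unfold sp
    rw [Submodule.span_le]
    rintro _ ⟨⟨e, b⟩, he, rfl⟩
    cases b
    · simp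
    · apply Submodule.subset_span
      exact ⟨e, by simpa [part] using he, by simp⟩
  · unfold sp
    rw [Submodule.span_le]
    rintro _ ⟨e, he, rfl⟩
    apply Submodule.subset_span
    exact ⟨(e, true), by simpa [part] using he, by simp⟩

lemma sp_both (y : E → W → F2) (R : Finset (E × Bool)) :
    sp F2 (fun p : E × Bool => y p.1) R = sp F2 y (part R false ∪ part R true) := by
  apply le_antisymm
  · unfold sp
    rw [Submodule.span_le]
    rintro _ ⟨⟨e, b⟩, he, rfl⟩
    apply Submodule.subset_span
    refine ⟨e, ?_, rfl⟩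
    cases b
    · simp only [part, Finset.coe_union, Set.mem_union, Finset.mem_coe, Finset.mem_filter,
        Finset.mem_univ, true_and]
      exact Or.inl he
    · simp only [part, Finset.coe_union, Set.mem_union, Finset.mem_coe, Finset.mem_filter,
        Finset.mem_univ, true_and]
      exact Or.inr he
  · unfold sp
    rw [Submodule.span_le]
    rintro _ ⟨e, he, rfl⟩
    apply Submodule.subset_span
    simp only [part, Finset.coe_union, Set.mem_union, Finset.mem_coe, Finset.mem_filter,
      Finset.mem_univ, true_and] at he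
    rcases he with he | he
    · exact ⟨(e, false), he, rfl⟩
    · exact ⟨(e, true), he, rfl⟩

open Classical in
/-- five spanning sets, with the prescribed pattern of overlaps -/
theorem five_sets (a b : E → W)
    (h5 : ∀ X : Finset W, cn a b univ X = 0 ∨ 5 ≤ cn a b univ X) :
    ∃ I : Fin 5 → Finset (E × Bool), (∀ i j, i ≠ j → Disjoint (I i) (I j)) ∧
      sp F2 (inc a b) (part (I 0) false) = sp F2 (inc a b) univ ∧
      sp F2 (inc a b) (part (I 1) false) = sp F2 (inc a b) univ ∧
      sp F2 (inc a b) (part (I 2) true) = sp F2 (inc a b) univ ∧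
      sp F2 (inc a b) (part (I 3) true) = sp F2 (inc a b) univ ∧
      sp F2 (inc a b) (part (I 4) false ∪ part (I 4) true) = sp F2 (inc a b) univ := by
  have hpu : ∀ c : Bool, part (univ : Finset (E × Bool)) c = univ := by
    intro c; ext e; simp [part]
  obtain ⟨I, hI1, hI2⟩ := packFam (F := F2) (x := cfg (inc a b)) (by
    intro R
    rw [Fin.sum_univ_five, Fin.sum_univ_five]
    rw [cfg0, cfg1, cfg2, cfg3, cfg4]
    rw [sp_false, sp_true, sp_both, sp_false, sp_true, sp_both, hpu, hpu, Finset.union_self]
    have h0 := Pool.Agent.TH300.FC.rank_condk 5 a b h5 (sp F2 (inc a b) (part R false))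
    have h1 := Pool.Agent.TH300.FC.rank_condk 5 a b h5 (sp F2 (inc a b) (part R true))
    have k0 : Module.finrank F2 (sp F2 (inc a b) (part R false)) ≤
        Module.finrank F2 (sp F2 (inc a b) (part R false ∪ part R true)) :=
      Submodule.finrank_mono (sp_mono Finset.subset_union_left)
    have k1 : Module.finrank F2 (sp F2 (inc a b) (part R true)) ≤
        Module.finrank F2 (sp F2 (inc a b) (part R false ∪ part R true)) :=
      Submodule.finrank_mono (sp_mono Finset.subset_union_right)
    have hcard : (univ.filter (fun e => ¬ inc a b e ∈ sp F2 (inc a b) (part R false))).card +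
        (univ.filter (fun e => ¬ inc a b e ∈ sp F2 (inc a b) (part R true))).card ≤
        (univ \ R).card := by
      have e0 : Function.Injective (fun e : E => (e, false)) := fun e f h => congrArg Prod.fst h
      have e1 : Function.Injective (fun e : E => (e, true)) := fun e f h => congrArg Prod.fst h
      rw [← Finset.card_map ⟨_, e0⟩, ← Finset.card_map (s := univ.filter _) ⟨_, e1⟩,
        ← Finset.card_union_of_disjoint]
      · apply Finset.card_le_card
        intro p hp
        rw [Finset.mem_union, Finset.mem_map, Finset.mem_map] at hp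
        rw [Finset.mem_sdiff]
        refine ⟨Finset.mem_univ _, ?_⟩
        rcases hp with ⟨e, he, rfl⟩ | ⟨e, he, rfl⟩
        · intro hR
          apply (Finset.mem_filter.1 he).2
          apply mem_sp
          rw [part, Finset.mem_filter]
          exact ⟨Finset.mem_univ _, hR⟩
        · intro hR
          apply (Finset.mem_filter.1 he).2
          apply mem_sp
          rw [part, Finset.mem_filter]
          exact ⟨Finset.mem_univ _, hR⟩
      · rw [Finset.disjoint_left]
        intro p hp hp'
        rw [Finset.mem_map] at hp hp'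
        obtain ⟨e, _, rfl⟩ := hp
        obtain ⟨f, _, hf⟩ := hp'
        have : true = false := congrArg Prod.snd hf
        exact absurd this (by decide)
    omega)
  refine ⟨I, hI1, ?_, ?_, ?_, ?_, ?_⟩
  · have := hI2 0
    rw [cfg0] at this
    rw [sp_false, sp_false, hpu] at this
    exact this
  · have := hI2 1
    rw [cfg1] at this
    rw [sp_false, sp_false, hpu] at this
    exact this
  · have := hI2 2
    rw [cfg2] at this
    rw [sp_true, sp_true, hpu] at this
    exact this
  · have := hI2 3
    rw [cfg3] at this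
    rw [sp_true, sp_true, hpu] at this
    exact this
  · have := hI2 4
    rw [cfg4] at this
    rw [sp_both, sp_both, hpu, hpu, Finset.union_self] at this
    exact this

end

variable {V E : Type} [Fintype V] [DecidableEq V] [Fintype E] [DecidableEq E]

/-- subgraphs whose nonempty cuts have at least five edges are rich -/
theorem rich_of_five (G : MGraph V E) (S : Finset E)
    (h5 : ∀ X : Finset V, cut G X ∩ S = ∅ ∨ 5 ≤ (cut G X ∩ S).card) : Rich G S := by
  classical
  have hcard : ∀ X : Finset V,
      (cut (sub G (· ∈ S)) X).map (Function.Embedding.subtype (· ∈ S)) = cut G X ∩ S := by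
    intro X
    ext e
    rw [Finset.mem_map, Finset.mem_inter]
    constructor
    · rintro ⟨a, h4, rfl⟩
      exact ⟨(mem_cut_sub G S X a).1 h4, a.2⟩
    · rintro ⟨h4, h5⟩
      exact ⟨⟨e, h5⟩, (mem_cut_sub G S X ⟨e, h5⟩).2 h4, rfl⟩
  obtain ⟨v, hv⟩ := (sub G (· ∈ S)).exists_halves
  obtain ⟨I, hI, s0, s1, s2, s3, s4⟩ := five_sets (fun e => v (e, false)) (fun e => v (e, true)) (by
    intro X
    rw [cn_cut (sub G (· ∈ S)) v hv X,
      ← Finset.card_map (Function.Embedding.subtype (· ∈ S)), hcard]
    rcases h5 X with h | h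
    · left; rw [h]; rfl
    · right; exact h)
  have hm : ∀ T, sp F2 (inc (fun e => v (e, false)) (fun e => v (e, true))) T =
      sp F2 (inc (fun e => v (e, false)) (fun e => v (e, true))) univ →
      ∀ X : Finset V, (∀ e ∈ cut (sub G (· ∈ S)) X, e ∉ T) →
      cut (sub G (· ∈ S)) X = ∅ := by
    intro T hT X hX
    apply meets (sub G (· ∈ S)) v hv T hT X
    rw [Finset.disjoint_left]
    exact hX
  have hp : ∀ (J : Finset ({e : E // e ∈ S} × Bool)) c e, e ∈ part J c ↔ (e, c) ∈ J := by
    intro J c e
    simp [part]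
  have hdis : ∀ i j c e, i ≠ j → (e, c) ∈ I i → (e, c) ∉ I j := fun i j c e hij h =>
    Finset.disjoint_left.1 (hI i j hij) h
  obtain ⟨ψ, hψ1, hψ2⟩ := extend_cut (sub G (· ∈ S)) v hv (fun e => e ∈ part (I 0) false)
    (fun X hX => hm _ s0 X hX) (fun e => if e ∈ part (I 1) false then 1 else 0)
  obtain ⟨ψ', hψ1', hψ2'⟩ := extend_cut (sub G (· ∈ S)) v hv (fun e => e ∈ part (I 2) true)
    (fun X hX => hm _ s2 X hX) (fun e => if e ∈ part (I 3) true then 1 else 0)
  let D : Finset E := (univ.filter fun e => ψ e = 1).map (Function.Embedding.subtype (· ∈ S))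
  let D' : Finset E := (univ.filter fun e => ψ' e = 1).map (Function.Embedding.subtype (· ∈ S))
  have hmemD : ∀ e : {e : E // e ∈ S}, e.1 ∈ D ↔ ψ e = 1 := by
    intro e
    constructor
    · intro he
      obtain ⟨a, ha, hae⟩ := Finset.mem_map.1 he
      have : a = e := Subtype.ext hae
      rw [← this]
      exact (Finset.mem_filter.1 ha).2
    · intro he
      exact Finset.mem_map.2 ⟨e, Finset.mem_filter.2 ⟨Finset.mem_univ _, he⟩, rfl⟩
  have hmemD' : ∀ e : {e : E // e ∈ S}, e.1 ∈ D' ↔ ψ' e = 1 := by
    intro e
    constructor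
    · intro he
      obtain ⟨a, ha, hae⟩ := Finset.mem_map.1 he
      have : a = e := Subtype.ext hae
      rw [← this]
      exact (Finset.mem_filter.1 ha).2
    · intro he
      exact Finset.mem_map.2 ⟨e, Finset.mem_filter.2 ⟨Finset.mem_univ _, he⟩, rfl⟩
  have hcutne : ∀ X : Finset V, (cut G X ∩ S).Nonempty → cut (sub G (· ∈ S)) X ≠ ∅ := by
    rintro X ⟨e, he⟩ h
    rw [Finset.mem_inter] at he
    have h6 := (mem_cut_sub G S X ⟨e, he.2⟩).2 he.1
    rw [h] at h6
    exact absurd h6 (Finset.notMem_empty _)
  refine ⟨D, D', ?_, ?_, ?_, ?_, ?_⟩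
  · intro e he
    obtain ⟨a, _, rfl⟩ := Finset.mem_map.1 he
    exact a.2
  · intro e he
    obtain ⟨a, _, rfl⟩ := Finset.mem_map.1 he
    exact a.2
  · intro x
    rw [deg_map]
    exact even_of_flow (sub G (· ∈ S)) v hv ψ hψ1 x
  · intro x
    rw [deg_map]
    exact even_of_flow (sub G (· ∈ S)) v hv ψ' hψ1' x
  · intro X hX
    refine ⟨?_, ?_, ?_⟩
    · by_contra hcon
      apply hcutne X hX
      apply hm _ s1 X
      intro e he he1
      apply hcon
      refine ⟨e.1, Finset.mem_inter.2 ⟨(mem_cut_sub G S X e).1 he, ?_⟩⟩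
      rw [hmemD, hψ2 e (fun h0 => hdis 0 1 false e (by decide) ((hp _ _ _).1 h0)
        ((hp _ _ _).1 he1)), if_pos he1]
    · by_contra hcon
      apply hcutne X hX
      apply hm _ s3 X
      intro e he he1
      apply hcon
      refine ⟨e.1, Finset.mem_inter.2 ⟨(mem_cut_sub G S X e).1 he, ?_⟩⟩
      rw [hmemD', hψ2' e (fun h0 => hdis 2 3 true e (by decide) ((hp _ _ _).1 h0)
        ((hp _ _ _).1 he1)), if_pos he1]
    · intro hcon
      apply hcutne X hX
      apply hm _ s4 X
      intro e he he4
      have h6 := hcon (Finset.mem_inter.2 ⟨(mem_cut_sub G S X e).1 he, e.2⟩)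
      rw [Finset.mem_inter, hmemD, hmemD'] at h6
      rw [Finset.mem_union, hp, hp] at he4
      rcases he4 with h | h
      · have h7 := hψ2 e (fun h0 => hdis 0 4 false e (by decide) ((hp _ _ _).1 h0) h)
        rw [if_neg (fun h1 => hdis 1 4 false e (by decide) ((hp _ _ _).1 h1) h), h6.1] at h7
        exact absurd h7 (by decide)
      · have h7 := hψ2' e (fun h0 => hdis 2 4 true e (by decide) ((hp _ _ _).1 h0) h)
        rw [if_neg (fun h1 => hdis 3 4 true e (by decide) ((hp _ _ _).1 h1) h), h6.2] at h7
        exact absurd h7 (by decide)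

end Run7.h315.QL
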