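import Pool.Agent.H126R2.CDC.Main
import Pool.Agent.TH300.FC.Base

set_option autoImplicit false
set_option linter.unusedSectionVars false

/-!
The quadric lift.  Two even edge sets `A1, A2` (given as functions with values in the field with two
elements) are lifted to five even sets `A1, A2, B1, B2, D` such that
`A1 * B1 + A2 * B2 + D` is a prescribed function `g`.
-/

namespace Run7.h315.QL

open Finset
open Pool.Agent.Helper879.ECD (F2 IsFlow f2_add_self f2_cases)
open Pool.Agent.H126R2.CDC (functional_eq mem_cob_of_orth)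

section

variable {W E : Type} [Fintype W] [DecidableEq W] [Fintype E] [DecidableEq E]

lemma IsFlow.add' {a b : E → W} {x y : E → F2} (hx : IsFlow a b x) (hy : IsFlow a b y) :
    IsFlow a b (fun e => x e + y e) := by
  intro c
  have h1 := hx c
  have h2 := hy c
  simp only [add_mul, Finset.sum_add_distrib]
  rw [h1, h2, add_zero]

lemma IsFlow.smul' {a b : E → W} {x : E → F2} (hx : IsFlow a b x) (r : F2) :
    IsFlow a b (fun e => r * x e) := by
  intro c
  have h1 := hx c
  simp only [mul_assoc, ← Finset.mul_sum]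
  rw [h1, mul_zero]

lemma IsFlow.zero' {a b : E → W} : IsFlow a b (fun _ => (0 : F2)) := by
  intro c; simp

/-- the quadric lift -/
theorem lift6 (a b : E → W) (A1 A2 g : E → F2)
    (hg : ∀ (c1 c2 c3 : W → F2) (d : E → F2), (∀ e, d e = c1 (a e) + c1 (b e)) →
      (∀ e, d e * A1 e = c2 (a e) + c2 (b e)) → (∀ e, d e * A2 e = c3 (a e) + c3 (b e)) →
      ∑ e, d e * g e = 0) :
    ∃ B1 B2 D : E → F2, IsFlow a b B1 ∧ IsFlow a b B2 ∧ IsFlow a b D ∧
      ∀ e, A1 e * B1 e + A2 e * B2 e + D e = g e := by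
  let S : Submodule F2 (E → F2) :=
    { carrier := {x | ∃ B1 B2 D : E → F2, IsFlow a b B1 ∧ IsFlow a b B2 ∧ IsFlow a b D ∧
        ∀ e, A1 e * B1 e + A2 e * B2 e + D e = x e}
      zero_mem' := ⟨fun _ => 0, fun _ => 0, fun _ => 0, IsFlow.zero', IsFlow.zero', IsFlow.zero',
        fun e => by simp⟩
      add_mem' := by
        rintro x y ⟨B1, B2, D, h1, h2, h3, h4⟩ ⟨B1', B2', D', h1', h2', h3', h4'⟩
        refine ⟨_, _, _, IsFlow.add' h1 h1', IsFlow.add' h2 h2', IsFlow.add' h3 h3', fun e => ?_⟩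
        simp only [Pi.add_apply]
        rw [← h4, ← h4']; ring
      smul_mem' := by
        rintro r x ⟨B1, B2, D, h1, h2, h3, h4⟩
        refine ⟨_, _, _, IsFlow.smul' h1 r, IsFlow.smul' h2 r, IsFlow.smul' h3 r, fun e => ?_⟩
        simp only [Pi.smul_apply, smul_eq_mul]
        rw [← h4]; ring }
  suffices h : g ∈ S from h
  by_contra hcon
  obtain ⟨f, hf1, hf2⟩ := Submodule.exists_dual_map_eq_bot_of_notMem hcon inferInstance
  have hf : ∀ x ∈ S, f x = 0 := by
    intro x hx
    have : f x ∈ S.map f := Submodule.mem_map_of_mem hx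
    rw [hf2] at this
    exact (Submodule.mem_bot F2).1 this
  set d : E → F2 := fun e => f (Pi.single e 1) with hd
  have h1 : ∃ c : W → F2, ∀ e, d e = c (a e) + c (b e) := by
    apply mem_cob_of_orth
    intro B hB
    have hmem : B ∈ S := ⟨_, _, B, IsFlow.zero', IsFlow.zero', hB, fun e => by simp⟩
    have h1 := hf _ hmem
    rw [functional_eq] at h1
    rw [← h1]
    apply Finset.sum_congr rfl
    intro e _
    simp only [hd]; ring
  have h2 : ∃ c : W → F2, ∀ e, d e * A1 e = c (a e) + c (b e) := by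
    apply mem_cob_of_orth
    intro B hB
    have hmem : (fun e => A1 e * B e) ∈ S :=
      ⟨B, _, _, hB, IsFlow.zero', IsFlow.zero', fun e => by simp⟩
    have h1 := hf _ hmem
    rw [functional_eq] at h1
    rw [← h1]
    apply Finset.sum_congr rfl
    intro e _
    simp only [hd]; ring
  have h3 : ∃ c : W → F2, ∀ e, d e * A2 e = c (a e) + c (b e) := by
    apply mem_cob_of_orth
    intro B hB
    have hmem : (fun e => A2 e * B e) ∈ S :=
      ⟨_, B, _, IsFlow.zero', hB, IsFlow.zero', fun e => by simp⟩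
    have h1 := hf _ hmem
    rw [functional_eq] at h1
    rw [← h1]
    apply Finset.sum_congr rfl
    intro e _
    simp only [hd]; ring
  obtain ⟨c1, hc1⟩ := h1
  obtain ⟨c2, hc2⟩ := h2
  obtain ⟨c3, hc3⟩ := h3
  apply hf1
  rw [functional_eq]
  exact hg c1 c2 c3 d hc1 hc2 hc3

/-- For two even sets which cover all edges it suffices to look at the cuts inside the classes. -/
theorem lift6' (a b : E → W) (A1 A2 g : E → F2) (hnz : ∀ e, A1 e = 1 ∨ A2 e = 1)
    (hp : ∀ (c : W → F2) (x y : F2),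
      (∀ e, c (a e) + c (b e) ≠ 0 → A1 e = x ∧ A2 e = y) → (x ≠ 0 ∨ y ≠ 0) →
      ∑ e, (c (a e) + c (b e)) * g e = 0) :
    ∃ B1 B2 D : E → F2, IsFlow a b B1 ∧ IsFlow a b B2 ∧ IsFlow a b D ∧
      ∀ e, A1 e * B1 e + A2 e * B2 e + D e = g e := by
  apply lift6
  intro c1 c2 c3 d h1 h2 h3
  have k1 : ∀ e, (c1 (a e) + c2 (a e)) + (c1 (b e) + c2 (b e)) = d e * (1 + A1 e) := by
    intro e
    rw [mul_add, mul_one, h2 e]
    nth_rewrite 1 [h1 e]
    ring
  have k2 : ∀ e, (c1 (a e) + c3 (a e)) + (c1 (b e) + c3 (b e)) = d e * (1 + A2 e) := by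
    intro e
    rw [mul_add, mul_one, h3 e]
    nth_rewrite 1 [h1 e]
    ring
  have k3 : ∀ e, (c1 (a e) + c2 (a e) + c3 (a e)) + (c1 (b e) + c2 (b e) + c3 (b e)) =
      d e * (1 + A1 e + A2 e) := by
    intro e
    rw [mul_add, mul_add, mul_one, h2 e, h3 e]
    nth_rewrite 1 [h1 e]
    ring
  have p1 := hp (fun w => c1 w + c2 w) 0 1 (by
    intro e he
    simp only [k1 e] at he
    have := hnz e
    rcases f2_cases (A1 e) with h | h
    · refine ⟨h, ?_⟩
      rcases this with h' | h'
      · rw [h] at h'; exact absurd h' (by decide)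
      · exact h'
    · rw [h, show (1 : F2) + 1 = 0 by decide, mul_zero] at he
      exact absurd rfl he) (Or.inr (by decide))
  have p2 := hp (fun w => c1 w + c3 w) 1 0 (by
    intro e he
    simp only [k2 e] at he
    have := hnz e
    rcases f2_cases (A2 e) with h | h
    · refine ⟨?_, h⟩
      rcases this with h' | h'
      · exact h'
      · rw [h] at h'; exact absurd h' (by decide)
    · rw [h, show (1 : F2) + 1 = 0 by decide, mul_zero] at he
      exact absurd rfl he) (Or.inl (by decide))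
  have p3 := hp (fun w => c1 w + c2 w + c3 w) 1 1 (by
    intro e he
    simp only [k3 e] at he
    have := hnz e
    rcases f2_cases (A1 e) with h | h <;> rcases f2_cases (A2 e) with h' | h'
    · rw [h, h'] at this; exact absurd this (by decide)
    · rw [h, h', show (1 : F2) + 0 + 1 = 0 by decide, mul_zero] at he
      exact absurd rfl he
    · rw [h, h', show (1 : F2) + 1 + 0 = 0 by decide, mul_zero] at he
      exact absurd rfl he
    · exact ⟨h, h'⟩) (Or.inl (by decide))
  simp only [k1] at p1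
  simp only [k2] at p2
  simp only [k3] at p3
  have hsum : ∑ e, d e * g e = ∑ e, d e * (1 + A1 e) * g e + ∑ e, d e * (1 + A2 e) * g e +
      ∑ e, d e * (1 + A1 e + A2 e) * g e := by
    rw [← Finset.sum_add_distrib, ← Finset.sum_add_distrib]
    apply Finset.sum_congr rfl
    intro e _
    have : ∀ d x y g : F2, d * g = d * (1 + x) * g + d * (1 + y) * g + d * (1 + x + y) * g := by
      decide
    exact this _ _ _ _
  rw [hsum, p1, p2, p3]
  simp

/-- If every nonempty cut meets `J`, any function on the complement of `J` extends to a flow. -/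
theorem extend (a b : E → W) (J : E → Prop)
    (hJ : ∀ c : W → F2, (∀ e, J e → c (a e) + c (b e) = 0) → ∀ e, c (a e) + c (b e) = 0)
    (f : E → F2) : ∃ ψ : E → F2, IsFlow a b ψ ∧ ∀ e, ¬ J e → ψ e = f e := by
  let S : Submodule F2 (E → F2) :=
    { carrier := {x | ∃ ψ : E → F2, IsFlow a b ψ ∧ ∀ e, ¬ J e → ψ e = x e}
      zero_mem' := ⟨fun _ => 0, IsFlow.zero', fun e _ => rfl⟩
      add_mem' := by
        rintro x y ⟨B, h1, h2⟩ ⟨B', h1', h2'⟩
        refine ⟨_, IsFlow.add' h1 h1', fun e he => ?_⟩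
        simp only [Pi.add_apply]
        rw [h2 e he, h2' e he]
      smul_mem' := by
        rintro r x ⟨B, h1, h2⟩
        refine ⟨_, IsFlow.smul' h1 r, fun e he => ?_⟩
        simp only [Pi.smul_apply, smul_eq_mul]
        rw [h2 e he] }
  suffices h : f ∈ S from h
  by_contra hcon
  obtain ⟨φ, hf1, hf2⟩ := Submodule.exists_dual_map_eq_bot_of_notMem hcon inferInstance
  have hf : ∀ x ∈ S, φ x = 0 := by
    intro x hx
    have : φ x ∈ S.map φ := Submodule.mem_map_of_mem hx
    rw [hf2] at this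
    exact (Submodule.mem_bot F2).1 this
  obtain ⟨c, hc⟩ := mem_cob_of_orth a b (fun e => φ (Pi.single e 1)) (by
    intro B hB
    have h1 := hf B ⟨B, hB, fun e _ => rfl⟩
    rw [functional_eq] at h1
    rw [← h1]
    apply Finset.sum_congr rfl
    intro e _
    ring)
  have h0 := hJ c (by
    intro e he
    rw [← hc e]
    apply hf
    refine ⟨fun _ => 0, IsFlow.zero', fun e' he' => ?_⟩
    have : e' ≠ e := by rintro rfl; exact he' he
    simp [this])
  apply hf1
  rw [functional_eq]
  apply Finset.sum_eq_zero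
  intro e _
  rw [hc e, h0 e, zero_mul]

end

/-- The six coordinates of the quadric: `A1 A2 B1 B2 D` is mapped to an even subset of six points,
of size two if `A1 * B1 + A2 * B2 + D = 1` and of size four otherwise. -/
def co (i : Fin 6) (x1 x2 y1 y2 d : F2) : F2 :=
  match i with
  | 0 => d + x1 + x2 + y1
  | 1 => d + x1 + x2 + y2
  | 2 => d + x1 + y1 + y2
  | 3 => d + x1 + y1
  | 4 => d + x2 + y1 + y2
  | 5 => d + x2 + y2

lemma co_card : ∀ x1 x2 y1 y2 d : F2, (x1 = 1 ∨ x2 = 1) →
    (univ.filter fun i => co i x1 x2 y1 y2 d = 1).card =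
      if x1 * y1 + x2 * y2 + d = 1 then 2 else 4 := by
  decide

lemma co_flow {W E : Type} [Fintype W] [DecidableEq W] [Fintype E] [DecidableEq E]
    {a b : E → W} {A1 A2 B1 B2 D : E → F2} (h1 : IsFlow a b A1) (h2 : IsFlow a b A2)
    (h3 : IsFlow a b B1) (h4 : IsFlow a b B2) (h5 : IsFlow a b D) (i : Fin 6) :
    IsFlow a b (fun e => co i (A1 e) (A2 e) (B1 e) (B2 e) (D e)) := by
  fin_cases i
  · exact IsFlow.add' (IsFlow.add' (IsFlow.add' h5 h1) h2) h3
  · exact IsFlow.add' (IsFlow.add' (IsFlow.add' h5 h1) h2) h4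
  · exact IsFlow.add' (IsFlow.add' (IsFlow.add' h5 h1) h3) h4
  · exact IsFlow.add' (IsFlow.add' h5 h1) h3
  · exact IsFlow.add' (IsFlow.add' (IsFlow.add' h5 h2) h3) h4
  · exact IsFlow.add' (IsFlow.add' h5 h2) h4

end Run7.h315.QL
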