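import Pool.Agent.Run7.h315.QL.Lift
import Pool.Agent.TH300.FC.Rank

set_option autoImplicit false
set_option linter.unusedSectionVars false

/-!
Circuit covers with the values two and four.
-/

namespace Run7.h315.QL

open Finset
open Pool.Agent.Helper879.ECD (F2 IsFlow f2_add_self f2_cases cn sp inc fnl fnl_inc)
open Pool.Agent.H126R2.CDC

variable {V E : Type} [Fintype V] [DecidableEq V] [Fintype E] [DecidableEq E]

/-- the set of the edges of `G` with exactly one end in `X` -/
def cut (G : MGraph V E) (X : Finset V) : Finset E :=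
  univ.filter fun e => (∃ x ∈ G.ends e, x ∈ X) ∧ ∃ x ∈ G.ends e, x ∉ X

lemma mem_cut (G : MGraph V E) (v : E × Bool → V)
    (hv : ∀ e, G.ends e = s(v (e, false), v (e, true))) (X : Finset V) (e : E) :
    e ∈ cut G X ↔ ¬ (v (e, false) ∈ X ↔ v (e, true) ∈ X) := by
  unfold cut
  simp only [Finset.mem_filter, Finset.mem_univ, true_and]
  rw [hv e]
  simp only [Sym2.mem_iff, exists_eq_or_imp, exists_eq_left]
  tauto

/-- the coboundary of a function is the indicator function of a cut -/
lemma cob_eq (G : MGraph V E) (v : E × Bool → V)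
    (hv : ∀ e, G.ends e = s(v (e, false), v (e, true))) (c : V → F2) (e : E) :
    c (v (e, false)) + c (v (e, true)) =
      if e ∈ cut G (univ.filter fun x => c x = 1) then 1 else 0 := by
  have h1 := mem_cut G v hv (univ.filter fun x => c x = 1) e
  simp only [Finset.mem_filter, Finset.mem_univ, true_and] at h1
  have h2 : ∀ x y : F2, (¬ (x = 1 ↔ y = 1) → x + y = 1) ∧ ((x = 1 ↔ y = 1) → x + y = 0) := by
    decide
  by_cases he : e ∈ cut G (univ.filter fun x => c x = 1)
  · rw [if_pos he]
    exact (h2 _ _).1 (h1.1 he)
  · rw [if_neg he]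
    exact (h2 _ _).2 (not_not.1 (fun h => he (h1.2 h)))

/-- the indicator function of an edge set -/
def ind (A : Finset E) : E → F2 := fun e => if e ∈ A then 1 else 0

lemma flow_ind (G : MGraph V E) (v : E × Bool → V)
    (hv : ∀ e, G.ends e = s(v (e, false), v (e, true))) (A : Finset E) :
    G.IsEven A ↔ IsFlow (fun e => v (e, false)) (fun e => v (e, true)) (ind A) := by
  rw [G.isEven_iff v hv, isFl_iff]
  rfl

/-- six even sets with values two and four -/
theorem two_four (G : MGraph V E) (A B : Finset E) (hA : G.IsEven A) (hB : G.IsEven B)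
    (hAB : ∀ e, e ∈ A ∨ e ∈ B) (L : Finset E)
    (hp : ∀ X : Finset V, (cut G X ⊆ A \ B ∨ cut G X ⊆ B \ A ∨ cut G X ⊆ A ∩ B) →
      Even (cut G X ∩ L).card) :
    ∃ F : Multiset (Finset E), (∀ C ∈ F, G.IsCircuit C) ∧
      ∀ e, F.countP (fun C => e ∈ C) = if e ∈ L then 2 else 4 := by
  classical
  obtain ⟨v, hv⟩ := G.exists_halves
  have fA := (flow_ind G v hv A).1 hA
  have fB := (flow_ind G v hv B).1 hB
  obtain ⟨B1, B2, D, h1, h2, h3, h4⟩ := lift6' (fun e => v (e, false)) (fun e => v (e, true))
    (ind A) (ind B) (ind L) (by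
      intro e
      rcases hAB e with h | h
      · left; simp [ind, h]
      · right; simp [ind, h]) (by
      intro c x y hc hxy
      have hcut : ∀ e, c (v (e, false)) + c (v (e, true)) = if e ∈ cut G
          (univ.filter fun x => c x = 1) then 1 else 0 := cob_eq G v hv c
      have hev : Even (cut G (univ.filter fun x => c x = 1) ∩ L).card := by
        apply hp
        have key : ∀ e ∈ cut G (univ.filter fun x => c x = 1), ind A e = x ∧ ind B e = y := by
          intro e he
          apply hc e
          rw [hcut e, if_pos he]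
          decide
        rcases f2_cases x with hx | hx <;> rcases f2_cases y with hy | hy
        · rw [hx, hy] at hxy
          exact absurd hxy (by decide)
        · right; left
          intro e he
          have := key e he
          rw [hx, hy] at this
          unfold ind at this
          rw [Finset.mem_sdiff]
          constructor
          · by_contra hne
            simp [hne] at this
          · intro hne
            simp [hne] at this
        · left
          intro e he
          have := key e he
          rw [hx, hy] at this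
          unfold ind at this
          rw [Finset.mem_sdiff]
          constructor
          · by_contra hne
            simp [hne] at this
          · intro hne
            simp [hne] at this
        · right; right
          intro e he
          have := key e he
          rw [hx, hy] at this
          unfold ind at this
          rw [Finset.mem_inter]
          constructor
          · by_contra hne
            simp [hne] at this
          · by_contra hne
            simp [hne] at this
      have : ∑ e, (c (v (e, false)) + c (v (e, true))) * ind L e =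
          (((cut G (univ.filter fun x => c x = 1) ∩ L).card : ℕ) : F2) := by
        rw [Finset.card_eq_sum_ones, Nat.cast_sum]
        rw [← Finset.sum_subset (Finset.subset_univ (cut G (univ.filter fun x => c x = 1) ∩ L))]
        · apply Finset.sum_congr rfl
          intro e he
          rw [Finset.mem_inter] at he
          rw [hcut e, if_pos he.1]
          simp [ind, he.2]
        · intro e _ he
          rw [hcut e]
          by_cases h5 : e ∈ cut G (univ.filter fun x => c x = 1)
          · have h6 : e ∉ L := fun h6 => he (Finset.mem_inter.2 ⟨h5, h6⟩)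
            simp [ind, h6]
          · simp [h5]
      rw [this]
      exact (ZMod.natCast_eq_zero_iff_even).2 hev)
  -- the six even sets
  let Z : Fin 6 → Finset E := fun i =>
    univ.filter fun e => co i (ind A e) (ind B e) (B1 e) (B2 e) (D e) = 1
  have hZ : ∀ i, G.IsEven (Z i) := by
    intro i
    rw [flow_ind G v hv]
    have h5 := co_flow fA fB h1 h2 h3 i
    have h6 : ind (Z i) = fun e => co i (ind A e) (ind B e) (B1 e) (B2 e) (D e) := by
      ext e
      unfold ind
      simp only [Z, Finset.mem_filter, Finset.mem_univ, true_and]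
      rcases f2_cases (co i (if e ∈ A then 1 else 0) (if e ∈ B then 1 else 0) (B1 e) (B2 e) (D e))
        with h7 | h7 <;> simp [ind, h7]
    rw [h6]
    exact h5
  choose F hF1 hF2 using fun i => G.decompose _ (Z i) rfl (hZ i)
  refine ⟨∑ i, F i, ?_, ?_⟩
  · intro C hC
    rw [Multiset.mem_sum] at hC
    obtain ⟨c, _, hc⟩ := hC
    exact hF1 c C hc
  · intro e
    have h1 : ∀ s : Finset (Fin 6), (∑ c ∈ s, F c).countP (fun C => e ∈ C) =
        ∑ c ∈ s, (F c).countP (fun C => e ∈ C) := by
      intro s
      induction s using Finset.induction_on with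
      | empty => simp
      | insert c s hc ih => rw [Finset.sum_insert hc, Finset.sum_insert hc, Multiset.countP_add, ih]
    rw [h1]
    have h2 : ∀ c ∈ (univ : Finset (Fin 6)), (F c).countP (fun C => e ∈ C) =
        if co c (ind A e) (ind B e) (B1 e) (B2 e) (D e) = 1 then 1 else 0 := by
      intro c _
      rw [hF2 c e]
      simp [Z]
    rw [Finset.sum_congr rfl h2, ← Finset.card_filter, co_card]
    · rw [h4 e]
      unfold ind
      by_cases hL : e ∈ L <;> simp [hL]
    · rcases hAB e with h | h
      · left; simp [ind, h]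
      · right; simp [ind, h]

/-- a sum of a family of multisets covers the sum -/
lemma cover_sum (G : MGraph V E) {ι : Type} [DecidableEq ι] (s : Finset ι) (w : ι → E → ℕ)
    (h : ∀ i ∈ s, ∃ F : Multiset (Finset E), (∀ C ∈ F, G.IsCircuit C) ∧
      ∀ e, F.countP (fun C => e ∈ C) = w i e) :
    ∃ F : Multiset (Finset E), (∀ C ∈ F, G.IsCircuit C) ∧
      ∀ e, F.countP (fun C => e ∈ C) = ∑ i ∈ s, w i e := by
  induction s using Finset.induction_on with
  | empty => exact ⟨0, by simp, by simp⟩
  | insert i s hi ih =>
    obtain ⟨F, hF1, hF2⟩ := ih (fun j hj => h j (Finset.mem_insert_of_mem hj))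
    obtain ⟨F', hF1', hF2'⟩ := h i (Finset.mem_insert_self i s)
    refine ⟨F' + F, ?_, ?_⟩
    · intro C hC
      rcases Multiset.mem_add.1 hC with h1 | h1
      · exact hF1' C h1
      · exact hF1 C h1
    · intro e
      rw [Multiset.countP_add, hF2, hF2', Finset.sum_insert hi]

/-- No cut inside a class: all eulerian weights between `2 s` and `4 s + 1`. -/
theorem ratio_two (G : MGraph V E) (A B : Finset E) (hA : G.IsEven A) (hB : G.IsEven B)
    (hAB : ∀ e, e ∈ A ∨ e ∈ B)
    (hp : ∀ X : Finset V, (cut G X ⊆ A \ B ∨ cut G X ⊆ B \ A ∨ cut G X ⊆ A ∩ B) →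
      cut G X = ∅) (s : ℕ) (w : E → ℕ)
    (hodd : ∀ v, Even (G.deg (univ.filter fun e => Odd (w e)) v))
    (hw : ∀ e, 2 * s ≤ w e ∧ w e ≤ 4 * s + 1) :
    ∃ F : Multiset (Finset E), (∀ C ∈ F, G.IsCircuit C) ∧
      ∀ e, F.countP (fun C => e ∈ C) = w e := by
  apply Pool.Agent.TH300.FC.finish G w hodd
  have h1 := cover_sum G (Finset.range s) (fun i e => if w e / 2 ≤ s + i then 2 else 4) (by
    intro i _
    obtain ⟨F, hF1, hF2⟩ := two_four G A B hA hB hAB (univ.filter fun e => w e / 2 ≤ s + i) (by
      intro X hX
      rw [hp X hX]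
      simp)
    refine ⟨F, hF1, fun e => ?_⟩
    rw [hF2 e]
    simp)
  obtain ⟨F, hF1, hF2⟩ := h1
  refine ⟨F, hF1, fun e => ?_⟩
  rw [hF2 e]
  obtain ⟨h2, h3⟩ := hw e
  have h4 : ∀ n : ℕ, ∑ i ∈ Finset.range n, (if w e / 2 ≤ s + i then 2 else 4) =
      2 * n + 2 * min n (w e / 2 - s) := by
    intro n
    induction n with
    | zero => simp
    | succ n ih =>
      rw [Finset.sum_range_succ, ih]
      split_ifs with h <;> omega
  rw [h4]
  omega

/-- An even set `D` such that neither `D` nor its complement contains a nonempty cut. -/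
theorem ratio_two_even (G : MGraph V E) (D : Finset E) (hD : G.IsEven D)
    (h1 : ∀ X : Finset V, cut G X ⊆ D → cut G X = ∅)
    (h2 : ∀ X : Finset V, Disjoint (cut G X) D → cut G X = ∅) (s : ℕ) (w : E → ℕ)
    (hodd : ∀ v, Even (G.deg (univ.filter fun e => Odd (w e)) v))
    (hw : ∀ e, 2 * s ≤ w e ∧ w e ≤ 4 * s + 1) :
    ∃ F : Multiset (Finset E), (∀ C ∈ F, G.IsCircuit C) ∧
      ∀ e, F.countP (fun C => e ∈ C) = w e := by
  classical
  obtain ⟨v, hv⟩ := G.exists_halves
  obtain ⟨ψ, hψ1, hψ2⟩ := extend (fun e => v (e, false)) (fun e => v (e, true)) (fun e => e ∈ D) (by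
    intro c hc
    have h3 := h2 (univ.filter fun x => c x = 1) (by
      rw [Finset.disjoint_left]
      intro e he heD
      have h4 := hc e heD
      rw [cob_eq G v hv c e, if_pos he] at h4
      exact absurd h4 (by decide))
    intro e
    rw [cob_eq G v hv c e, h3]
    simp) (fun _ => 1)
  refine ratio_two G D (univ.filter fun e => ψ e = 1) hD ?_ ?_ ?_ s w hodd hw
  · rw [flow_ind G v hv]
    have h4 : ind (univ.filter fun e => ψ e = 1) = ψ := by
      ext f
      unfold ind
      rcases f2_cases (ψ f) with h5 | h5 <;> simp [h5]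
    rw [h4]
    exact hψ1
  · intro e
    by_cases he : e ∈ D
    · exact Or.inl he
    · right
      simp [hψ2 e he]
  · intro X hX
    rcases hX with h | h | h
    · exact h1 X (h.trans Finset.sdiff_subset)
    · apply h2 X
      rw [Finset.disjoint_left]
      intro e he heD
      exact (Finset.mem_sdiff.1 (h he)).2 heD
    · exact h1 X (h.trans Finset.inter_subset_left)

lemma cn_cut (G : MGraph V E) (v : E × Bool → V)
    (hv : ∀ e, G.ends e = s(v (e, false), v (e, true))) (X : Finset V) :
    cn (fun e => v (e, false)) (fun e => v (e, true)) univ X = (cut G X).card := by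
  unfold cn
  congr 1
  ext e
  rw [mem_cut G v hv]
  simp

/-- a set of full rank meets every nonempty cut -/
lemma meets (G : MGraph V E) (v : E × Bool → V)
    (hv : ∀ e, G.ends e = s(v (e, false), v (e, true))) (I : Finset E)
    (hI : sp F2 (inc (fun e => v (e, false)) (fun e => v (e, true))) I =
      sp F2 (inc (fun e => v (e, false)) (fun e => v (e, true))) univ) (X : Finset V)
    (hX : Disjoint (cut G X) I) : cut G X = ∅ := by
  classical
  have h1 : sp F2 (inc (fun e => v (e, false)) (fun e => v (e, true))) I ≤
      LinearMap.ker (fnl (fun x => if x ∈ X then (1 : F2) else 0)) := by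
    unfold sp
    rw [Submodule.span_le]
    rintro _ ⟨e, he, rfl⟩
    rw [SetLike.mem_coe, LinearMap.mem_ker, fnl_inc]
    have h2 : e ∉ cut G X := fun h3 => Finset.disjoint_left.1 hX h3 he
    rw [mem_cut G v hv, not_not] at h2
    by_cases h3 : v (e, false) ∈ X
    · have h4 := h2.1 h3
      simp [h3, h4, f2_add_self]
    · have h4 : v (e, true) ∉ X := fun h5 => h3 (h2.2 h5)
      simp [h3, h4]
  rw [hI] at h1
  rw [Finset.eq_empty_iff_forall_notMem]
  intro e he
  have h3 := h1 (Submodule.subset_span ⟨e, by simp, rfl⟩)
  rw [LinearMap.mem_ker, fnl_inc] at h3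
  rw [mem_cut G v hv] at he
  by_cases h5 : v (e, false) ∈ X
  · have h6 : v (e, true) ∉ X := fun h6 => he ⟨fun _ => h6, fun _ => h5⟩
    simp [h5, h6] at h3
  · have h6 : v (e, true) ∈ X := by
      by_contra h6
      exact he ⟨fun h => absurd h h5, fun h => absurd h h6⟩
    simp [h5, h6] at h3

/-- If every nonempty cut has at least six edges, then all eulerian weights between `2 s` and
`4 s + 1` have circuit covers. -/
theorem ratio_two_six (G : MGraph V E)
    (h6 : ∀ X : Finset V, cut G X = ∅ ∨ 6 ≤ (cut G X).card) (s : ℕ) (w : E → ℕ)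
    (hodd : ∀ v, Even (G.deg (univ.filter fun e => Odd (w e)) v))
    (hw : ∀ e, 2 * s ≤ w e ∧ w e ≤ 4 * s + 1) :
    ∃ F : Multiset (Finset E), (∀ C ∈ F, G.IsCircuit C) ∧
      ∀ e, F.countP (fun C => e ∈ C) = w e := by
  classical
  obtain ⟨v, hv⟩ := G.exists_halves
  obtain ⟨I, hI1, hI2⟩ := packK (K := Fin 3) (F := F2)
    (x := inc (fun e => v (e, false)) (fun e => v (e, true))) (by
      intro R
      have h1 := Pool.Agent.TH300.FC.rank_condk 6 (fun e => v (e, false)) (fun e => v (e, true)) (by
        intro X
        rw [cn_cut G v hv X]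
        rcases h6 X with h | h
        · left; rw [h]; rfl
        · right; exact h)
        (sp F2 (inc (fun e => v (e, false)) (fun e => v (e, true))) R)
      rw [Fintype.card_fin]
      omega)
  have hm : ∀ i, ∀ X : Finset V, Disjoint (cut G X) (I i) → cut G X = ∅ :=
    fun i X hX => meets G v hv (I i) (hI2 i) X hX
  -- the even set
  obtain ⟨ψ, hψ1, hψ2⟩ := extend (fun e => v (e, false)) (fun e => v (e, true))
    (fun e => e ∈ I 0) (by
    intro c hc
    have h3 := hm 0 (univ.filter fun x => c x = 1) (by
      rw [Finset.disjoint_left]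
      intro e he heD
      have h4 := hc e heD
      rw [cob_eq G v hv c e, if_pos he] at h4
      exact absurd h4 (by decide))
    intro e
    rw [cob_eq G v hv c e, h3]
    simp) (fun e => if e ∈ I 1 then 1 else 0)
  refine ratio_two_even G (univ.filter fun e => ψ e = 1) ?_ ?_ ?_ s w hodd hw
  · rw [flow_ind G v hv]
    have h4 : ind (univ.filter fun e => ψ e = 1) = ψ := by
      ext f
      unfold ind
      rcases f2_cases (ψ f) with h5 | h5 <;> simp [h5]
    rw [h4]
    exact hψ1
  · intro X hX
    apply hm 2
    rw [Finset.disjoint_left]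
    intro e he he2
    have h7 := (Finset.mem_filter.1 (hX he)).2
    have h8 : e ∉ I 0 := fun h => Finset.disjoint_left.1 (hI1 0 2 (by decide)) h he2
    have h9 : e ∉ I 1 := fun h => Finset.disjoint_left.1 (hI1 1 2 (by decide)) h he2
    rw [hψ2 e h8, if_neg h9] at h7
    exact absurd h7 (by decide)
  · intro X hX
    apply hm 1
    rw [Finset.disjoint_left]
    intro e he he1
    have h8 : e ∉ I 0 := fun h => Finset.disjoint_left.1 (hI1 0 1 (by decide)) h he1
    apply Finset.disjoint_left.1 hX he
    simp [hψ2 e h8, he1]

end Run7.h315.QL
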