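import Pool.Agent.Run7.h315.QL.Main

set_option autoImplicit false
set_option linter.unusedSectionVars false

/-!
Good subgraphs, and circuit covers assembled from good subgraphs and bridgeless subgraphs.
-/

namespace Run7.h315.QL

open Finset
open Pool.Agent.Helper879.ECD (F2 IsFlow f2_add_self f2_cases cn sp inc fnl fnl_inc)
open Pool.Agent.H126R2.CDC
open Pool.Agent.TH300.FC (sub deg_map up)

variable {V E : Type} [Fintype V] [DecidableEq V] [Fintype E] [DecidableEq E]

/-- some circuits, with multiplicities, cover every edge `e` exactly `w e` times -/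
def HasCover (G : MGraph V E) (w : E → ℕ) : Prop :=
  ∃ F : Multiset (Finset E), (∀ C ∈ F, G.IsCircuit C) ∧ ∀ e, F.countP (fun C => e ∈ C) = w e

/-- `S` is good: it is the union of two even sets `A`, `B` such that no nonempty cut of the
subgraph with edge set `S` lies in one of the three classes `A \ B`, `B \ A`, `A ∩ B`. -/
def Good (G : MGraph V E) (S : Finset E) : Prop :=
  ∃ A B : Finset E, G.IsEven A ∧ G.IsEven B ∧ A ∪ B = S ∧
    ∀ X : Finset V, (cut G X ∩ S ⊆ A \ B ∨ cut G X ∩ S ⊆ B \ A ∨ cut G X ∩ S ⊆ A ∩ B) →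
      cut G X ∩ S = ∅

/-- circuits of a subgraph, as circuits of the graph -/
lemma cover_up (G : MGraph V E) (S : Finset E) (w : {e : E // e ∈ S} → ℕ)
    (h : ∃ F : Multiset (Finset {e : E // e ∈ S}), (∀ C ∈ F, (sub G (· ∈ S)).IsCircuit C) ∧
      ∀ e, F.countP (fun C => e ∈ C) = w e) :
    HasCover G (fun e => if h : e ∈ S then w ⟨e, h⟩ else 0) := by
  obtain ⟨F, hF1, hF2⟩ := h
  refine ⟨F.map (fun D => D.map (Function.Embedding.subtype (· ∈ S))), ?_, ?_⟩
  · intro C hC
    rw [Multiset.mem_map] at hC
    obtain ⟨D, hD, rfl⟩ := hC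
    exact up G (· ∈ S) D (hF1 D hD)
  · intro e
    rw [Multiset.countP_map]
    beta_reduce
    by_cases he : e ∈ S
    · rw [dif_pos he, ← hF2 ⟨e, he⟩, Multiset.countP_eq_card_filter]
      congr 1
      apply Multiset.filter_congr
      intro D _
      rw [Finset.mem_map]
      constructor
      · rintro ⟨a, ha, hae⟩
        have : a = ⟨e, he⟩ := Subtype.ext hae
        rw [← this]; exact ha
      · intro ha
        exact ⟨_, ha, rfl⟩
    · rw [dif_neg he, Multiset.card_eq_zero, Multiset.filter_eq_nil]
      intro D _ hD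
      rw [Finset.mem_map] at hD
      obtain ⟨a, _, hae⟩ := hD
      apply he
      have : a.1 = e := hae
      rw [← this]; exact a.2

lemma even_sub (G : MGraph V E) (S A : Finset E) (hAS : A ⊆ S) (hA : G.IsEven A) :
    (sub G (· ∈ S)).IsEven (A.subtype (· ∈ S)) := by
  intro v
  rw [← deg_map]
  have : (A.subtype (· ∈ S)).map (Function.Embedding.subtype (· ∈ S)) = A := by
    rw [Finset.subtype_map]
    exact Finset.filter_true_of_mem (fun e he => hAS he)
  rw [this]
  exact hA v

lemma mem_cut_sub (G : MGraph V E) (S : Finset E) (X : Finset V) (e : {e : E // e ∈ S}) :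
    e ∈ cut (sub G (· ∈ S)) X ↔ e.1 ∈ cut G X := by
  unfold cut sub
  simp

/-- the values two and four on a subgraph -/
theorem two_four_sub (G : MGraph V E) (S A B : Finset E) (hA : G.IsEven A) (hB : G.IsEven B)
    (hAB : A ∪ B = S) (L : Finset E)
    (hp : ∀ X : Finset V,
      (cut G X ∩ S ⊆ A \ B ∨ cut G X ∩ S ⊆ B \ A ∨ cut G X ∩ S ⊆ A ∩ B) →
      Even (cut G X ∩ S ∩ L).card) :
    HasCover G (fun e => if e ∈ S then (if e ∈ L then 2 else 4) else 0) := by
  classical
  have hAS : A ⊆ S := by rw [← hAB]; exact Finset.subset_union_left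
  have hBS : B ⊆ S := by rw [← hAB]; exact Finset.subset_union_right
  have h1 := two_four (sub G (· ∈ S)) (A.subtype (· ∈ S)) (B.subtype (· ∈ S))
    (even_sub G S A hAS hA) (even_sub G S B hBS hB) (by
      rintro ⟨e, he⟩
      rw [← hAB, Finset.mem_union] at he
      rcases he with h | h
      · left; rw [Finset.mem_subtype]; exact h
      · right; rw [Finset.mem_subtype]; exact h) (L.subtype (· ∈ S)) (by
      intro X hX
      have h2 : Even (cut G X ∩ S ∩ L).card := by
        apply hp
        rcases hX with h | h | h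
        · left
          intro e he
          rw [Finset.mem_inter] at he
          have h3 := h ((mem_cut_sub G S X ⟨e, he.2⟩).2 he.1)
          rw [Finset.mem_sdiff, Finset.mem_subtype, Finset.mem_subtype] at h3
          exact Finset.mem_sdiff.2 h3
        · right; left
          intro e he
          rw [Finset.mem_inter] at he
          have h3 := h ((mem_cut_sub G S X ⟨e, he.2⟩).2 he.1)
          rw [Finset.mem_sdiff, Finset.mem_subtype, Finset.mem_subtype] at h3
          exact Finset.mem_sdiff.2 h3
        · right; right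
          intro e he
          rw [Finset.mem_inter] at he
          have h3 := h ((mem_cut_sub G S X ⟨e, he.2⟩).2 he.1)
          rw [Finset.mem_inter, Finset.mem_subtype, Finset.mem_subtype] at h3
          exact Finset.mem_inter.2 h3
      have h3 : (cut (sub G (· ∈ S)) X ∩ L.subtype (· ∈ S)).card = (cut G X ∩ S ∩ L).card := by
        rw [← Finset.card_map (Function.Embedding.subtype (· ∈ S))]
        congr 1
        ext e
        simp only [Finset.mem_map, Finset.mem_inter, Finset.mem_subtype,
          Function.Embedding.subtype_apply]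
        constructor
        · rintro ⟨a, ⟨h4, h5⟩, rfl⟩
          exact ⟨⟨(mem_cut_sub G S X a).1 h4, a.2⟩, h5⟩
        · rintro ⟨⟨h4, h5⟩, h6⟩
          exact ⟨⟨e, h5⟩, ⟨(mem_cut_sub G S X ⟨e, h5⟩).2 h4, h6⟩, rfl⟩
      rw [h3]
      exact h2)
  obtain ⟨F, hF1, hF2⟩ := cover_up G S _ h1
  refine ⟨F, hF1, fun e => ?_⟩
  rw [hF2 e]
  beta_reduce
  by_cases he : e ∈ S
  · rw [dif_pos he, if_pos he]
    simp
  · rw [dif_neg he, if_neg he]

/-- Assembling covers: good subgraphs and bridgeless subgraphs. -/
theorem assemble (G : MGraph V E) {ι κ : Type} [Fintype ι] [DecidableEq ι] [Fintype κ]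
    [DecidableEq κ] (S : ι → Finset E) (hS : ∀ i, Good G (S i)) (R : κ → Finset E)
    (hR : ∀ j, ∀ e ∈ R j, ∃ C, G.IsCircuit C ∧ e ∈ C ∧ C ⊆ R j) (w : E → ℕ)
    (hodd : ∀ v, Even (G.deg (univ.filter fun e => Odd (w e)) v))
    (hw : ∀ e, 2 * (univ.filter fun j => e ∈ R j).card + 2 * (univ.filter fun i => e ∈ S i).card ≤
        w e ∧
      w e ≤ 2 * (univ.filter fun j => e ∈ R j).card + 4 * (univ.filter fun i => e ∈ S i).card + 1) :
    HasCover G w := by
  classical
  apply Pool.Agent.TH300.FC.finish G w hodd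
  -- the heavy layers of an edge
  have hH : ∀ e, ∃ H : Finset ι, H ⊆ univ.filter (fun i => e ∈ S i) ∧
      H.card = w e / 2 - (univ.filter fun j => e ∈ R j).card -
        (univ.filter fun i => e ∈ S i).card := by
    intro e
    obtain ⟨h1, h2⟩ := hw e
    obtain ⟨H, hH1, hH2⟩ := Finset.exists_subset_card_eq
      (s := univ.filter (fun i => e ∈ S i))
      (n := w e / 2 - (univ.filter fun j => e ∈ R j).card - (univ.filter fun i => e ∈ S i).card)
      (by omega)
    exact ⟨H, hH1, hH2⟩
  choose H hH1 hH2 using hH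
  have h1 := cover_sum G (univ : Finset ι)
    (fun i e => if e ∈ S i then (if e ∈ univ.filter (fun e => i ∉ H e) then 2 else 4) else 0) (by
    intro i _
    obtain ⟨A, B, hA, hB, hAB, hcut⟩ := hS i
    apply two_four_sub G (S i) A B hA hB hAB
    intro X hX
    rw [hcut X hX]
    simp)
  have h2 := cover_sum G (univ : Finset κ) (fun j e => if e ∈ R j then 2 else 0) (by
    intro j _
    exact Pool.Agent.TH300.FC.layer G (fun e => e ∈ R j) (fun e he => by
      obtain ⟨C, hC1, hC2, hC3⟩ := hR j e he
      exact ⟨C, hC1, hC2, fun f hf => hC3 hf⟩))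
  obtain ⟨F, hF1, hF2⟩ := h1
  obtain ⟨F', hF1', hF2'⟩ := h2
  refine ⟨F + F', ?_, ?_⟩
  · intro C hC
    rcases Multiset.mem_add.1 hC with h1 | h1
    · exact hF1 C h1
    · exact hF1' C h1
  · intro e
    rw [Multiset.countP_add, hF2, hF2']
    obtain ⟨h3, h4⟩ := hw e
    have h5 : ∑ j : κ, (if e ∈ R j then 2 else 0) = 2 * (univ.filter fun j => e ∈ R j).card := by
      rw [Finset.card_filter, Finset.mul_sum]
      apply Finset.sum_congr rfl
      intro j _
      split_ifs <;> rfl
    have h6 : ∑ i : ι, (if e ∈ S i then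
        (if e ∈ univ.filter (fun e => i ∉ H e) then 2 else 4) else 0) =
        2 * (univ.filter fun i => e ∈ S i).card + 2 * (H e).card := by
      have h7 : (H e).card = ∑ i : ι, if i ∈ H e then 1 else 0 := by
        rw [← Finset.card_filter]
        congr 1
        ext i
        simp
      rw [h7, Finset.card_filter, Finset.mul_sum, Finset.mul_sum, ← Finset.sum_add_distrib]
      apply Finset.sum_congr rfl
      intro i _
      by_cases hi : e ∈ S i
      · by_cases hi2 : i ∈ H e <;> simp [hi, hi2]
      · have hi2 : i ∉ H e := fun h => hi (Finset.mem_filter.1 (hH1 e h)).2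
        simp [hi, hi2]
    rw [h5, h6, hH2 e]
    omega

/-- two and four on the whole graph, with weights of cuts -/
theorem two_four_weights (G : MGraph V E) (S A B : Finset E) (hA : G.IsEven A)
    (hB : G.IsEven B) (hAB : A ∪ B = S) (w : E → ℕ) (hw : ∀ e ∈ S, w e = 2 ∨ w e = 4)
    (hw0 : ∀ e, e ∉ S → w e = 0)
    (hp : ∀ X : Finset V,
      (cut G X ∩ S ⊆ A \ B ∨ cut G X ∩ S ⊆ B \ A ∨ cut G X ∩ S ⊆ A ∩ B) →
      4 ∣ ∑ e ∈ cut G X, w e) :
    HasCover G w := by
  classical
  obtain ⟨F, hF1, hF2⟩ := two_four_sub G S A B hA hB hAB (univ.filter fun e => w e = 2) (by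
    intro X hX
    have h1 := hp X hX
    have h2 : ∑ e ∈ cut G X, w e = ∑ e ∈ cut G X ∩ S, w e := by
      symm
      apply Finset.sum_subset Finset.inter_subset_left
      intro e he he2
      apply hw0
      intro heS
      exact he2 (Finset.mem_inter.2 ⟨he, heS⟩)
    have h3 : ∑ e ∈ cut G X ∩ S, w e + 2 * (cut G X ∩ S ∩ univ.filter fun e => w e = 2).card =
        4 * (cut G X ∩ S).card := by
      have h4 : (cut G X ∩ S ∩ univ.filter fun e => w e = 2).card =
          ∑ e ∈ cut G X ∩ S, if w e = 2 then 1 else 0 := by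
        rw [← Finset.card_filter]
        congr 1
        ext e
        simp only [Finset.mem_inter, Finset.mem_filter, Finset.mem_univ, true_and]
      rw [h4, Finset.card_eq_sum_ones, Finset.mul_sum, Finset.mul_sum, ← Finset.sum_add_distrib]
      apply Finset.sum_congr rfl
      intro e he
      rcases hw e (Finset.mem_inter.1 he).2 with h5 | h5 <;> simp [h5]
    rw [h2] at h1
    obtain ⟨k, hk⟩ := h1
    rw [Nat.even_iff]
    omega)
  refine ⟨F, hF1, fun e => ?_⟩
  rw [hF2 e]
  by_cases he : e ∈ S
  · rcases hw e he with h | h <;> simp [he, h]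
  · simp [he, hw0 e he]

/-- an even subset `D` of `S` such that neither `D` nor `S \ D` contains a nonempty cut -/
theorem good_of_even (G : MGraph V E) (S D : Finset E) (hDS : D ⊆ S) (hD : G.IsEven D)
    (h1 : ∀ X : Finset V, cut G X ∩ S ⊆ D → cut G X ∩ S = ∅)
    (h2 : ∀ X : Finset V, Disjoint (cut G X) D → cut G X ∩ S = ∅) : Good G S := by
  classical
  obtain ⟨v, hv⟩ := G.exists_halves
  -- a flow of `G` which is one on `S \ D` and zero outside `S`
  obtain ⟨v', hv'⟩ := (sub G (· ∈ S)).exists_halves
  obtain ⟨ψ, hψ1, hψ2⟩ := extend (fun e => v' (e, false)) (fun e => v' (e, true))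
    (fun e => e.1 ∈ D) (by
    intro c hc
    have h3 := h2 (univ.filter fun x => c x = 1) (by
      rw [Finset.disjoint_left]
      intro e he heD
      have h4 := hc ⟨e, hDS heD⟩ heD
      rw [cob_eq (sub G (· ∈ S)) v' hv' c, if_pos] at h4
      · exact absurd h4 (by decide)
      · rw [mem_cut_sub]; exact he)
    intro e
    rw [cob_eq (sub G (· ∈ S)) v' hv' c e, if_neg]
    intro h4
    rw [mem_cut_sub] at h4
    have h5 : e.1 ∈ cut G (univ.filter fun x => c x = 1) ∩ S := Finset.mem_inter.2 ⟨h4, e.2⟩
    rw [h3] at h5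
    exact absurd h5 (Finset.notMem_empty _)) (fun _ => 1)
  have hev : (sub G (· ∈ S)).IsEven (univ.filter fun e => ψ e = 1) := by
    rw [flow_ind (sub G (· ∈ S)) v' hv']
    have h4 : ind (univ.filter fun e => ψ e = 1) = ψ := by
      ext f
      unfold ind
      rcases f2_cases (ψ f) with h5 | h5 <;> simp [h5]
    rw [h4]
    exact hψ1
  let B : Finset E :=
    (univ.filter fun e => ψ e = 1).map (Function.Embedding.subtype (· ∈ S))
  have hBS : B ⊆ S := by
    intro e he
    obtain ⟨a, _, rfl⟩ := Finset.mem_map.1 he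
    exact a.2
  have hSB : ∀ e ∈ S, e ∉ D → e ∈ B := by
    intro e he heD
    refine Finset.mem_map.2 ⟨⟨e, he⟩, ?_, rfl⟩
    rw [Finset.mem_filter]
    exact ⟨Finset.mem_univ _, hψ2 ⟨e, he⟩ heD⟩
  refine ⟨D, B, hD, ?_, ?_, ?_⟩
  · intro x
    rw [deg_map]
    exact hev x
  · ext e
    rw [Finset.mem_union]
    constructor
    · rintro (h | h)
      · exact hDS h
      · exact hBS h
    · intro h
      by_cases hd : e ∈ D
      · exact Or.inl hd
      · exact Or.inr (hSB e h hd)
  · intro X hX
    rcases hX with h | h | h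
    · exact h1 X (h.trans Finset.sdiff_subset)
    · apply h2 X
      rw [Finset.disjoint_left]
      intro e he heD
      have h3 := h (Finset.mem_inter.2 ⟨he, hDS heD⟩)
      exact (Finset.mem_sdiff.1 h3).2 heD
    · exact h1 X (h.trans Finset.inter_subset_left)

/-- subgraphs whose nonempty cuts have at least six edges are good -/
theorem good_of_six (G : MGraph V E) (S : Finset E)
    (h6 : ∀ X : Finset V, cut G X ∩ S = ∅ ∨ 6 ≤ (cut G X ∩ S).card) : Good G S := by
  classical
  have hcard : ∀ X : Finset V,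
      (cut (sub G (· ∈ S)) X).map (Function.Embedding.subtype (· ∈ S)) = cut G X ∩ S := by
    intro X
    ext e
    rw [Finset.mem_map, Finset.mem_inter]
    constructor
    · rintro ⟨a, h4, rfl⟩
      exact ⟨(mem_cut_sub G S X a).1 h4, a.2⟩
    · rintro ⟨h4, h5⟩
      exact ⟨⟨e, h5⟩, (mem_cut_sub G S X ⟨e, h5⟩).2 h4, rfl⟩
  obtain ⟨v, hv⟩ := (sub G (· ∈ S)).exists_halves
  obtain ⟨I, hI1, hI2⟩ := packK (K := Fin 3) (F := F2)
    (x := inc (fun e => v (e, false)) (fun e => v (e, true))) (by
      intro R
      have h1 := Pool.Agent.TH300.FC.rank_condk 6 (fun e => v (e, false)) (fun e => v (e, true)) (by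
        intro X
        rw [cn_cut (sub G (· ∈ S)) v hv X,
          ← Finset.card_map (Function.Embedding.subtype (· ∈ S)), hcard]
        rcases h6 X with h | h
        · left; rw [h]; rfl
        · right; exact h)
        (sp F2 (inc (fun e => v (e, false)) (fun e => v (e, true))) R)
      rw [Fintype.card_fin]
      omega)
  have hm : ∀ i, ∀ X : Finset V, Disjoint (cut (sub G (· ∈ S)) X) (I i) →
      cut (sub G (· ∈ S)) X = ∅ :=
    fun i X hX => meets (sub G (· ∈ S)) v hv (I i) (hI2 i) X hX
  have hempty : ∀ X : Finset V, cut (sub G (· ∈ S)) X = ∅ → cut G X ∩ S = ∅ := by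
    intro X hX
    rw [← hcard, hX]
    rfl
  -- the even set
  obtain ⟨ψ, hψ1, hψ2⟩ := extend (fun e => v (e, false)) (fun e => v (e, true))
    (fun e => e ∈ I 0) (by
    intro c hc
    have h3 := hm 0 (univ.filter fun x => c x = 1) (by
      rw [Finset.disjoint_left]
      intro e he heD
      have h4 := hc e heD
      rw [cob_eq (sub G (· ∈ S)) v hv c e, if_pos he] at h4
      exact absurd h4 (by decide))
    intro e
    rw [cob_eq (sub G (· ∈ S)) v hv c e, h3]
    simp) (fun e => if e ∈ I 1 then 1 else 0)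
  let D : Finset E := (univ.filter fun e => ψ e = 1).map (Function.Embedding.subtype (· ∈ S))
  have hmemD : ∀ e : {e : E // e ∈ S}, e.1 ∈ D ↔ ψ e = 1 := by
    intro e
    constructor
    · intro he
      obtain ⟨a, ha, hae⟩ := Finset.mem_map.1 he
      have : a = e := Subtype.ext hae
      rw [← this]
      exact (Finset.mem_filter.1 ha).2
    · intro he
      exact Finset.mem_map.2 ⟨e, Finset.mem_filter.2 ⟨Finset.mem_univ _, he⟩, rfl⟩
  refine good_of_even G S D ?_ ?_ ?_ ?_
  · intro e he
    obtain ⟨a, _, rfl⟩ := Finset.mem_map.1 he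
    exact a.2
  · intro x
    rw [deg_map]
    have hev : (sub G (· ∈ S)).IsEven (univ.filter fun e => ψ e = 1) := by
      rw [flow_ind (sub G (· ∈ S)) v hv]
      have h4 : ind (univ.filter fun e => ψ e = 1) = ψ := by
        ext f
        unfold ind
        rcases f2_cases (ψ f) with h5 | h5 <;> simp [h5]
      rw [h4]
      exact hψ1
    exact hev x
  · intro X hX
    apply hempty
    apply hm 2
    rw [Finset.disjoint_left]
    intro e he he2
    have h7 := (hmemD e).1 (hX (Finset.mem_inter.2 ⟨(mem_cut_sub G S X e).1 he, e.2⟩))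
    have h8 : e ∉ I 0 := fun h => Finset.disjoint_left.1 (hI1 0 2 (by decide)) h he2
    have h9 : e ∉ I 1 := fun h => Finset.disjoint_left.1 (hI1 1 2 (by decide)) h he2
    rw [hψ2 e h8, if_neg h9] at h7
    exact absurd h7 (by decide)
  · intro X hX
    apply hempty
    apply hm 1
    rw [Finset.disjoint_left]
    intro e he he1
    have h8 : e ∉ I 0 := fun h => Finset.disjoint_left.1 (hI1 0 1 (by decide)) h he1
    apply Finset.disjoint_left.1 hX ((mem_cut_sub G S X e).1 he)
    rw [hmemD, hψ2 e h8, if_pos he1]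

end Run7.h315.QL
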